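import Pool.Agent.RCM.Stmts

/-! Squad RCM, row LSD (helper94). -/

set_option autoImplicit false

namespace Pool.Agent.RCM.H94

open Set

universe u

theorem ncard_le {E : Type u} [Finite E] (N : Matroid E) {I A : Set E} (hI : N.Indep I)
    (h : I ⊆ N.closure A) : I.ncard ≤ A.ncard := by
  have h1 : I.encard ≤ A.encard := by
    calc I.encard ≤ N.eRk (N.closure A) := hI.encard_le_eRk_of_subset h
      _ = N.eRk A := N.eRk_closure_eq A
      _ ≤ A.encard := N.eRk_le_encard A
  have h2 : A.encard ≠ ⊤ := Set.encard_ne_top_iff.2 (Set.toFinite A)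
  exact ENat.toNat_le_toNat h1 h2

theorem lsd (phi : PhiStmt.{u}) (rch : RchStmt.{u}) : LsdStmt.{u} := by
  intro E K _ _ M N κ s t P X T hC hM hS
  refine ⟨?_, ?_⟩
  · intro T' x hR hX hT hx
    by_contra h
    obtain ⟨hS', -⟩ := rch E K M N κ s t P X T T' hC hM hS hR
    have h1 := (phi E K M N κ s t P X T' hC hM hS').1 x hT hX h
    rw [(phi E K M N κ s t P X T hC hM hS).2 T' hR] at h1
    exact hx h1
  · intro c
    exact ncard_le N ((hC.indN c).subset inter_subset_left) inter_subset_right

end Pool.Agent.RCM.H94
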